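import Pool.Agent.H64.OC2.Uniform

/-!
# Deterministic on-line colouring of 3-colourable graphs with `O(n^(1/2 + ε))` colours

One deterministic on-line algorithm (for all numbers of vertices) that uses at most
`K n^(1/2 + ε)` colours on every 3-colourable graph with `n` vertices, for every `ε > 0`
(`K` depends on `ε` only).  The best bound known before was `n^(2/3)` up to logarithms.
-/

set_option autoImplicit false

namespace Pool.Agent.Results.MP_2c0425_lc.DetThreeColour

open Pool.Agent.H64.OC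

theorem result : ∃ A : OnlineAlg, A.Proper ∧
    ∀ ε : ℝ, 0 < ε → ∃ K : ℝ, ∀ n : ℕ, 1 ≤ n → ∀ G : SimpleGraph (Fin n), G.Colorable 3 →
      (A.numColours G : ℝ) ≤ K * (n : ℝ) ^ (1 / 2 + ε) := by
  obtain ⟨A, hA, h⟩ := Pool.Agent.H64.OC2.uniform_upper (k := 3) le_rfl
  refine ⟨A, hA, fun ε hε => ?_⟩
  obtain ⟨K, hK⟩ := h ε hε
  refine ⟨K, fun n hn G hG => ?_⟩
  have h1 := hK n hn G hG
  have e : (((3 : ℕ) : ℝ) - 2) / (((3 : ℕ) : ℝ) - 1) + ε = 1 / 2 + ε := by
    norm_num
  rw [e] at h1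
  exact h1

end Pool.Agent.Results.MP_2c0425_lc.DetThreeColour
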